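import Pool.Agent.C4F.StmtsP

/-!
# Squad C4F, row CPY: copies along the 5-cycles are equal
-/

set_option autoImplicit false

namespace Pool.Agent.C4F.H60

open Pool.Agent.C4F

theorem cpy : CpyStmt := by
  intro D hD f hf i hi j hj hij hkc
  have hQ : 0 < D.q ^ 2 := by
    have := hD.three
    positivity
  have hki : D.kc i < 10 := by
    unfold Dat.kc
    exact (Nat.div_lt_iff_lt_mul hQ).2 hi
  have hkj : D.kc j < 10 := by
    unfold Dat.kc
    exact (Nat.div_lt_iff_lt_mul hQ).2 hj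
  have hc : i % D.q ^ 2 < D.q ^ 2 := Nat.mod_lt _ hQ
  let m : ℕ → ℕ := fun t => D.q ^ 2 * (5 * (D.kc i / 5) + t % 5) + i % D.q ^ 2
  have hdiv : ∀ t, D.kc (m t) = 5 * (D.kc i / 5) + t % 5 := by
    intro t
    change (D.q ^ 2 * (5 * (D.kc i / 5) + t % 5) + i % D.q ^ 2) / D.q ^ 2 = _
    rw [Nat.mul_add_div hQ, Nat.div_eq_of_lt hc, add_zero]
  have hmod : ∀ t, m t % D.q ^ 2 = i % D.q ^ 2 := by
    intro t
    change (D.q ^ 2 * (5 * (D.kc i / 5) + t % 5) + i % D.q ^ 2) % D.q ^ 2 = _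
    rw [Nat.mul_add_mod, Nat.mod_mod]
  have hlt : ∀ t, m t < D.k := by
    intro t
    refine lt_of_lt_of_le ?_ hD.hk
    have h1 : D.kc (m t) < 10 := by
      rw [hdiv]
      omega
    unfold Dat.kc at h1
    exact (Nat.div_lt_iff_lt_mul hQ).1 h1
  have hcyc : ∀ t, D.Cyc (m t) (m (t + 1)) := by
    intro t
    refine ⟨by rw [hmod, hmod], ?_, ?_, ?_, ?_⟩
    · rw [hdiv]; omega
    · rw [hdiv]; omega
    · rw [hdiv, hdiv]; omega
    · rw [hdiv, hdiv]; omega
  have hle : ∀ t, f (m t) ≤ f (m (t + 1)) := by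
    intro t
    by_contra h
    exact hf.2 (m t) (hlt t) (m (t + 1)) (hlt (t + 1)) (Or.inl ⟨hcyc t, not_le.1 h⟩)
  have hmono : Monotone (fun t => f (m t)) := monotone_nat_of_le_succ hle
  have hper : ∀ t, m (t + 5) = m t := by
    intro t
    change D.q ^ 2 * (5 * (D.kc i / 5) + (t + 5) % 5) + i % D.q ^ 2 = _
    rw [Nat.add_mod_right]
  have hconst : ∀ s < 5, ∀ t < 5, f (m s) = f (m t) := by
    intro s hs t ht
    apply le_antisymm
    · have h1 : f (m s) ≤ f (m (t + 5)) := hmono (by omega)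
      rwa [hper] at h1
    · have h1 : f (m t) ≤ f (m (s + 5)) := hmono (by omega)
      rwa [hper] at h1
  have hi' : m (D.kc i % 5) = i := by
    change D.q ^ 2 * (5 * (D.kc i / 5) + D.kc i % 5 % 5) + i % D.q ^ 2 = i
    have h1 : 5 * (D.kc i / 5) + D.kc i % 5 % 5 = i / D.q ^ 2 := by
      unfold Dat.kc
      omega
    rw [h1]
    exact Nat.div_add_mod i (D.q ^ 2)
  have hj' : m (D.kc j % 5) = j := by
    change D.q ^ 2 * (5 * (D.kc i / 5) + D.kc j % 5 % 5) + i % D.q ^ 2 = j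
    have h1 : 5 * (D.kc i / 5) + D.kc j % 5 % 5 = j / D.q ^ 2 := by
      rw [hkc]
      unfold Dat.kc
      omega
    rw [h1, hij]
    exact Nat.div_add_mod j (D.q ^ 2)
  have := hconst (D.kc i % 5) (Nat.mod_lt _ (by norm_num)) (D.kc j % 5) (Nat.mod_lt _ (by norm_num))
  rwa [hi', hj'] at this

end Pool.Agent.C4F.H60
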