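import Pool.Agent.C4F.StmtsM

/-!
# Squad C4F, row KIT: closure properties of numerical functions and tests
-/

set_option autoImplicit false

namespace Pool.Agent.C4F.H60

open Pool.Agent.C4F
open Pool.Agent.Helper53_CookLevin (PGen scan flatMap_replicate)
open Pool.Agent.Helper53_Chan (Test)

theorem num_congr {r : ℕ} {f g : (Fin r → List Lt) → ℕ} (h : NumF r f) (e : ∀ ρ, f ρ = g ρ) :
    NumF r g := by
  have : f = g := funext e
  rwa [← this]

theorem num_rename {r r' : ℕ} (g : Fin r → Fin r') {f : (Fin r → List Lt) → ℕ} (h : NumF r f) :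
    NumF r' (fun ρ => f (ρ ∘ g)) := PGen.rename g h

theorem test_rename {r r' : ℕ} (g : Fin r → Fin r') {P : (Fin r → List Lt) → Prop}
    (h : Test r P) : Test r' (fun ρ => P (ρ ∘ g)) := by
  obtain ⟨T, hT, hP⟩ := h
  exact ⟨_, PGen.rename g hT, fun ρ => hP (ρ ∘ g)⟩

theorem num_var {r : ℕ} (j : Fin r) : NumF r (fun ρ => (ρ j).length) :=
  Pool.Agent.Helper53_CookLevin.Num.var Lt.tick j

theorem num_cst {r : ℕ} (c : ℕ) : NumF r (fun _ => c) := PGen.const (List.replicate c Lt.tick)

theorem num_add {r : ℕ} {f g : (Fin r → List Lt) → ℕ} (hf : NumF r f) (hg : NumF r g) :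
    NumF r (fun ρ => f ρ + g ρ) :=
  Pool.Agent.Helper53_Chan.PGen.congr (PGen.append hf hg) (fun ρ => by
    rw [List.replicate_add])

theorem num_sub {r : ℕ} {f g : (Fin r → List Lt) → ℕ} (hf : NumF r f) (hg : NumF r g) :
    NumF r (fun ρ => f ρ - g ρ) :=
  Pool.Agent.Helper53_Chan.PGen.congr (Pool.Agent.Helper53_Chan.PGen.dropF hf hg) (fun ρ => by
    rw [List.length_replicate, List.drop_replicate])

theorem loop_len {r : ℕ} {t : (Fin r → List Lt) → ℕ} {F : ℕ → (Fin r → List Lt) → List Lt}
    (ht : NumF r t) (hF : PGen (r + 1) (fun ρ => F (ρ 0).length (fun i => ρ i.succ))) :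
    PGen r (fun ρ => (List.range (t ρ)).flatMap fun v => F v ρ) := by
  have h := Pool.Agent.Helper53_Chan.PGen.loopRange (K := fun w ρ => F w.length ρ) ht hF
  exact Pool.Agent.Helper53_Chan.PGen.congr h (fun ρ => by simp only [List.length_replicate])

theorem num_mul {r : ℕ} {f g : (Fin r → List Lt) → ℕ} (hf : NumF r f) (hg : NumF r g) :
    NumF r (fun ρ => f ρ * g ρ) := by
  have h := loop_len (F := fun _ ρ => List.replicate (g ρ) Lt.tick) hf (num_rename Fin.succ hg)
  exact Pool.Agent.Helper53_Chan.PGen.congr h (fun ρ => flatMap_replicate _ _ _)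

theorem test_cst {r : ℕ} (p : Prop) : Test r (fun _ : Fin r → List Lt => p) := by
  by_cases h : p
  · exact ⟨fun _ => [], PGen.const [], fun _ => ⟨fun _ => h, fun _ => rfl⟩⟩
  · exact ⟨fun _ => [Lt.tick], PGen.const _, fun _ => ⟨fun h' => absurd h' (List.cons_ne_nil _ _), fun h' => absurd h' h⟩⟩

theorem test_le {r : ℕ} {f g : (Fin r → List Lt) → ℕ} (hf : NumF r f) (hg : NumF r g) :
    Test r (fun ρ => f ρ ≤ g ρ) :=
  Test.congr (Pool.Agent.Helper53_Chan.Test.lenLe hf hg) (fun ρ => by
    rw [List.length_replicate, List.length_replicate])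

theorem test_congr {r : ℕ} {P Q : (Fin r → List Lt) → Prop} (hP : Test r P)
    (h : ∀ ρ, P ρ ↔ Q ρ) : Test r Q := Test.congr hP h

theorem test_lt {r : ℕ} {f g : (Fin r → List Lt) → ℕ} (hf : NumF r f) (hg : NumF r g) :
    Test r (fun ρ => f ρ < g ρ) :=
  test_congr (test_le (num_add hf (num_cst 1)) hg) (fun _ => Nat.succ_le_iff)

theorem test_eq {r : ℕ} {f g : (Fin r → List Lt) → ℕ} (hf : NumF r f) (hg : NumF r g) :
    Test r (fun ρ => f ρ = g ρ) :=
  test_congr (Test.and (test_le hf hg) (test_le hg hf)) (fun _ => le_antisymm_iff.symm)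

theorem test_not {r : ℕ} {P : (Fin r → List Lt) → Prop} (hP : Test r P) :
    Test r (fun ρ => ¬ P ρ) := by
  classical
  refine ⟨_, Test.ite hP (PGen.const [Lt.tick]) (PGen.const []), fun ρ => ?_⟩
  by_cases h : P ρ
  · rw [if_pos h]
    exact ⟨fun h' => absurd h' (List.cons_ne_nil _ _), fun h' => absurd h h'⟩
  · rw [if_neg h]
    exact ⟨fun _ => h, fun _ => rfl⟩

theorem test_or {r : ℕ} {P Q : (Fin r → List Lt) → Prop} (hP : Test r P) (hQ : Test r Q) :
    Test r (fun ρ => P ρ ∨ Q ρ) :=
  test_congr (test_not (Test.and (test_not hP) (test_not hQ))) (fun ρ => by tauto)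

theorem count_flat (P : ℕ → Prop) [DecidablePred P] : ∀ n : ℕ,
    (List.range n).flatMap (fun k => if P k then [Lt.tick] else []) =
      List.replicate (Nat.count P n) Lt.tick
  | 0 => rfl
  | n + 1 => by
    rw [List.range_succ, List.flatMap_append, count_flat P n, Nat.count_succ]
    by_cases h : P n
    · rw [if_pos h, List.replicate_add]
      simp [h]
    · rw [if_neg h, add_zero]
      simp [h]

theorem num_cnt {r : ℕ} {t : (Fin r → List Lt) → ℕ} {P : ℕ → (Fin r → List Lt) → Prop}
    (ht : NumF r t) (hP : Test (r + 1) (fun ρ => P (ρ 0).length (fun i => ρ i.succ))) :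
    NumF r (fun ρ => cn (fun v => P v ρ) (t ρ)) := by
  classical
  have h := loop_len (F := fun v ρ => if P v ρ then [Lt.tick] else []) ht
    (Test.ite hP (PGen.const [Lt.tick]) (PGen.const []))
  refine Pool.Agent.Helper53_Chan.PGen.congr h (fun ρ => ?_)
  rw [count_flat]
  unfold cn
  congr 2

theorem cn_zero_iff (P : ℕ → Prop) (n : ℕ) : cn P n = 0 ↔ ∀ v < n, ¬ P v := by
  classical
  unfold cn
  induction n with
  | zero => simp
  | succ n ih =>
    rw [Nat.count_succ, Nat.add_eq_zero_iff, ih]
    constructor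
    · rintro ⟨h1, h2⟩ v hv
      rcases Nat.lt_succ_iff_lt_or_eq.1 hv with h | h
      · exact h1 v h
      · subst h
        intro hp
        rw [if_pos hp] at h2
        exact one_ne_zero h2
    · intro h
      refine ⟨fun v hv => h v (Nat.lt_succ_of_lt hv), ?_⟩
      rw [if_neg (h n (Nat.lt_succ_self n))]

theorem test_ex {r : ℕ} {t : (Fin r → List Lt) → ℕ} {P : ℕ → (Fin r → List Lt) → Prop}
    (ht : NumF r t) (hP : Test (r + 1) (fun ρ => P (ρ 0).length (fun i => ρ i.succ))) :
    Test r (fun ρ => ∃ v < t ρ, P v ρ) := by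
  refine test_congr (test_not (test_eq (num_cnt ht hP) (num_cst 0))) (fun ρ => ?_)
  rw [cn_zero_iff]
  push Not
  rfl

theorem test_all {r : ℕ} {t : (Fin r → List Lt) → ℕ} {P : ℕ → (Fin r → List Lt) → Prop}
    (ht : NumF r t) (hP : Test (r + 1) (fun ρ => P (ρ 0).length (fun i => ρ i.succ))) :
    Test r (fun ρ => ∀ v < t ρ, P v ρ) := by
  refine test_congr (test_not (test_ex (P := fun v ρ => ¬ P v ρ) ht (test_not hP))) (fun ρ => ?_)
  push Not
  rfl

theorem cn_div (a b : ℕ) : cn (fun v => 0 < b ∧ (v + 1) * b ≤ a) a = a / b := by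
  classical
  rcases Nat.eq_zero_or_pos b with h0 | h0
  · subst h0
    rw [Nat.div_zero, cn_zero_iff]
    rintro v _ ⟨h, _⟩
    exact lt_irrefl _ h
  · have key : ∀ n, cn (fun v => 0 < b ∧ (v + 1) * b ≤ a) n = min n (a / b) := by
      intro n
      unfold cn
      induction n with
      | zero => simp
      | succ n ih =>
        rw [Nat.count_succ, ih]
        by_cases h : 0 < b ∧ (n + 1) * b ≤ a
        · rw [if_pos h]
          have h2 : n + 1 ≤ a / b := (Nat.le_div_iff_mul_le h0).2 h.2
          omega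
        · rw [if_neg h]
          have h2 : ¬ n + 1 ≤ a / b := fun h3 => h ⟨h0, (Nat.le_div_iff_mul_le h0).1 h3⟩
          omega
    rw [key, Nat.min_eq_right (Nat.div_le_self a b)]

theorem num_div {r : ℕ} {f g : (Fin r → List Lt) → ℕ} (hf : NumF r f) (hg : NumF r g) :
    NumF r (fun ρ => f ρ / g ρ) := by
  have h1 := num_cnt (P := fun v ρ => 0 < g ρ ∧ (v + 1) * g ρ ≤ f ρ) hf
    (Test.and (test_lt (num_cst 0) (num_rename Fin.succ hg))
      (test_le (num_mul (num_add (num_var 0) (num_cst 1)) (num_rename Fin.succ hg))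
        (num_rename Fin.succ hf)))
  exact num_congr h1 (fun ρ => cn_div _ _)

theorem num_mod {r : ℕ} {f g : (Fin r → List Lt) → ℕ} (hf : NumF r f) (hg : NumF r g) :
    NumF r (fun ρ => f ρ % g ρ) := by
  refine num_congr (num_sub hf (num_mul hg (num_div hf hg))) (fun ρ => ?_)
  have := Nat.div_add_mod (f ρ) (g ρ)
  omega

theorem scan_look (c : Lt) (n : ℕ) : ∀ (p l : List Lt),
    scan (fun q d => if d = c ∧ q.length = n then [Lt.tick] else []) p l = [] ↔
      ¬ (p.length ≤ n ∧ l[n - p.length]? = some c)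
  | p, [] => by simp [scan]
  | p, d :: l => by
    rw [scan, List.append_eq_nil_iff, scan_look c n (p ++ [d]) l, List.length_append,
      List.length_singleton]
    by_cases h : p.length = n
    · subst h
      rw [Nat.sub_self, List.getElem?_cons_zero]
      by_cases hd : d = c
      · rw [if_pos ⟨hd, rfl⟩]
        simp [hd]
      · rw [if_neg (fun h => hd h.1)]
        simp [hd]
    · rw [if_neg (fun h' => h h'.2)]
      by_cases h2 : p.length ≤ n
      · obtain ⟨e, he⟩ : ∃ e, n = p.length + (e + 1) := ⟨n - p.length - 1, by omega⟩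
        have e1 : n - (p.length + 1) = e := by omega
        have e2 : n - p.length = e + 1 := by omega
        rw [e1, e2, List.getElem?_cons_succ]
        constructor
        · rintro ⟨-, h3⟩ ⟨-, h4⟩
          exact h3 ⟨by omega, h4⟩
        · intro h3
          exact ⟨rfl, fun h4 => h3 ⟨h2, h4.2⟩⟩
      · constructor
        · rintro - ⟨h3, -⟩
          exact h2 h3
        · intro _
          exact ⟨rfl, fun h4 => by omega⟩

theorem test_look {r : ℕ} (j : Fin r) (c : Lt) {t : (Fin r → List Lt) → ℕ} (ht : NumF r t) :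
    Test r (fun ρ => (ρ j)[t ρ]? = some c) := by
  classical
  have h := Pool.Agent.Helper53_Chan.PGen.loopG (Pool.Agent.Helper53_Chan.PGen.var (C := Lt) j)
    (K := fun d q ρ => if d = c ∧ q.length = t ρ then [Lt.tick] else []) (fun d =>
      Test.ite (Test.and (test_cst (d = c)) (test_eq (num_var 0) (num_rename Fin.succ ht)))
        (PGen.const [Lt.tick]) (PGen.const []))
  have h2 : Test r (fun ρ => ¬ (ρ j)[t ρ]? = some c) := by
    refine ⟨_, h, fun ρ => ?_⟩
    rw [scan_look]
    simp
  exact test_congr (test_not h2) (fun ρ => not_not)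

theorem kit : Kit where
  rename := fun _ _ g _ hf => num_rename g hf
  trename := fun _ _ g _ hP => test_rename g hP
  var := fun _ j => num_var j
  cst := fun _ c => num_cst c
  add := fun _ _ _ hf hg => num_add hf hg
  sub := fun _ _ _ hf hg => num_sub hf hg
  mul := fun _ _ _ hf hg => num_mul hf hg
  div := fun _ _ _ hf hg => num_div hf hg
  mod := fun _ _ _ hf hg => num_mod hf hg
  cnt := fun _ _ _ ht hP => num_cnt ht hP
  tcst := fun _ p => test_cst p
  lt := fun _ _ _ hf hg => test_lt hf hg
  le := fun _ _ _ hf hg => test_le hf hg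
  eq := fun _ _ _ hf hg => test_eq hf hg
  and := fun _ _ _ hP hQ => Test.and hP hQ
  or := fun _ _ _ hP hQ => test_or hP hQ
  not := fun _ _ hP => test_not hP
  ex := fun _ _ _ ht hP => test_ex ht hP
  all := fun _ _ _ ht hP => test_all ht hP
  look := fun _ j c _ ht => test_look j c ht
  loop := fun _ _ _ ht hF => loop_len ht hF
  ncount := fun _ j c =>
    Pool.Agent.Helper53_Chan.PGen.congr (Pool.Agent.Helper53_Chan.PGen.cnt (fun d => d == c) Lt.tick
      (Pool.Agent.Helper53_Chan.PGen.var j)) (fun ρ => by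
        change List.replicate (List.filter (fun d => d == c) (ρ j)).length Lt.tick =
          List.replicate (List.countP (fun x => x == c) (ρ j)) Lt.tick
        rw [List.countP_eq_length_filter])

end Pool.Agent.C4F.H60
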